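import Pool.Agent.W232.FC.Stm

set_option autoImplicit false

/-!
A small basis of `ℚ(ζ, γ)` (`S_BAS`).
-/

namespace Pool.Agent.W108.FC.BAS

open NumberField Pool.Agent.W232.FC

/-- the arithmetic of `G^j` -/
lemma exists_h (p ρ : ℕ) (hp : 0 < p) (hρ : 1 ≤ ρ) (G : ℤ) (hG : G ≠ 0)
    (hdvd : ∀ l : ℕ, l.Prime → (l : ℤ) ∣ G → l ∣ ρ) (j : ℕ) :
    ∃ (h : ℕ) (N : ℤ), h ≠ 0 ∧ G ^ j = (h : ℤ) ^ p * N ∧ N.natAbs ≤ ρ ^ p := by
  classical
  set n : ℕ := G.natAbs with hn
  have hn0 : n ≠ 0 := Int.natAbs_ne_zero.mpr hG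
  set e : ℕ → ℕ := fun l => n.factorization l with he
  set h : ℕ := ∏ l ∈ n.primeFactors, l ^ (j * e l / p) with hh
  set r : ℕ := ∏ l ∈ n.primeFactors, l ^ (j * e l % p) with hr
  have hprime : ∀ l ∈ n.primeFactors, l.Prime := fun l hl => Nat.prime_of_mem_primeFactors hl
  have hh0 : h ≠ 0 := Finset.prod_ne_zero_iff.mpr fun l hl =>
    pow_ne_zero _ (hprime l hl).ne_zero
  have hnj : n ^ j = h ^ p * r := by
    have h1 : n = ∏ l ∈ n.primeFactors, l ^ e l := by
      conv_lhs => rw [← Nat.prod_factorization_pow_eq_self hn0]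
      rfl
    rw [hh, hr, ← Finset.prod_pow, ← Finset.prod_mul_distrib]
    conv_lhs => rw [h1]
    rw [← Finset.prod_pow]
    refine Finset.prod_congr rfl fun l _ => ?_
    rw [← pow_mul, ← pow_mul, ← pow_add]
    congr 1
    have h2 := Nat.div_add_mod (j * e l) p
    calc e l * j = j * e l := mul_comm _ _
      _ = p * (j * e l / p) + j * e l % p := h2.symm
      _ = _ := by ring
  have hrle : r ≤ ρ ^ p := by
    have h1 : ∏ l ∈ n.primeFactors, l ≤ ρ := by
      refine Nat.le_of_dvd (by omega) ?_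
      refine Finset.prod_primes_dvd ρ (fun l hl => (hprime l hl).prime) fun l hl => ?_
      exact hdvd l (hprime l hl) (Int.natCast_dvd.mpr (Nat.dvd_of_mem_primeFactors hl))
    calc r ≤ ∏ l ∈ n.primeFactors, l ^ p := by
          refine Finset.prod_le_prod' fun l hl => ?_
          exact Nat.pow_le_pow_right (hprime l hl).pos (Nat.mod_lt _ hp).le
      _ = (∏ l ∈ n.primeFactors, l) ^ p := Finset.prod_pow _ _ _
      _ ≤ ρ ^ p := Nat.pow_le_pow_left h1 p
  refine ⟨h, G.sign ^ j * r, hh0, ?_, ?_⟩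
  · have h1 : G = G.sign * (n : ℤ) := (Int.sign_mul_natAbs G).symm
    have h2 : ((n : ℤ)) ^ j = (h : ℤ) ^ p * (r : ℤ) := by exact_mod_cast hnj
    conv_lhs => rw [h1]
    rw [mul_pow, h2]
    ring
  · rw [Int.natAbs_mul, Int.natAbs_pow, Int.natAbs_sign_of_ne_zero hG, one_pow, one_mul,
      Int.natAbs_natCast]
    exact hrle

theorem main : Pool.Agent.W232.FC.S_BAS := by
  classical
  intro p ρ ζ γ G hp hρ hζ hγ hG hdvd
  have hp0 : 0 < p := by omega
  have hζp : ζ ^ p = 1 := hζ.pow_eq_one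
  have hGC : (G : ℂ) ≠ 0 := by exact_mod_cast hG
  set F := IntermediateField.adjoin ℚ ({ζ, γ} : Set ℂ) with hF
  have hζF : ζ ∈ F := IntermediateField.subset_adjoin ℚ _ (by simp)
  have hγF : γ ∈ F := IntermediateField.subset_adjoin ℚ _ (by simp)
  set z : F := ⟨ζ, hζF⟩ with hz
  set g : F := ⟨γ, hγF⟩ with hg
  have hzp : z ^ p = 1 := by
    apply Subtype.ext
    simpa [hz] using hζp
  have hgp : g ^ p = (G : F) := by
    apply Subtype.ext
    simpa [hg] using hγ
  -- the small elements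
  choose h N hh0 hGj hN using exists_h p ρ hp0 hρ G hG hdvd
  set th : ℕ → F := fun j => g ^ j * ((h j : ℕ) : F)⁻¹ with hth
  have hhF : ∀ j, ((h j : ℕ) : F) ≠ 0 := fun j => by exact_mod_cast hh0 j
  have hthp : ∀ j, th j ^ p = (N j : F) := by
    intro j
    rw [hth]
    simp only
    rw [mul_pow, ← pow_mul, mul_comm j p, pow_mul, hgp, inv_pow]
    have h1 : ((G : F)) ^ j = ((h j : ℕ) : F) ^ p * (N j : F) := by exact_mod_cast hGj j
    rw [h1, mul_comm _ (N j : F), mul_assoc, mul_inv_cancel₀ (pow_ne_zero _ (hhF j)), mul_one]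
  set v : Fin p × Fin p → F := fun ij => z ^ (ij.1 : ℕ) * th (ij.2 : ℕ) with hv
  have hvp : ∀ ij, v ij ^ p = (N ij.2 : F) := by
    intro ij
    rw [hv]
    simp only
    rw [mul_pow, hthp, ← pow_mul, mul_comm (ij.1 : ℕ) p, pow_mul, hzp, one_pow, one_mul]
  have hint : ∀ ij, IsIntegral ℤ (v ij) := by
    intro ij
    refine IsIntegral.of_pow hp0 ?_
    rw [hvp]
    have h1 : ((N ij.2 : ℤ) : F) = algebraMap ℤ F (N ij.2) := by simp
    rw [h1]
    exact isIntegral_algebraMap
  have hsmall : ∀ ij, ∀ σ : F →+* ℂ, ‖σ (v ij)‖ ≤ ρ := by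
    intro ij σ
    have h1 : ‖σ (v ij)‖ ^ p ≤ (ρ : ℝ) ^ p := by
      rw [← norm_pow, ← map_pow, hvp, map_intCast, Complex.norm_intCast]
      have h2 : (|(N ij.2 : ℝ)|) = ((N ij.2).natAbs : ℝ) := by
        rw [Nat.cast_natAbs]
        push_cast
        rfl
      rw [h2]
      exact_mod_cast hN ij.2
    exact le_of_pow_le_pow_left₀ hp0.ne' (Nat.cast_nonneg _) h1
  -- the span
  have halg : ∀ x ∈ ({ζ, γ} : Set ℂ), IsAlgebraic ℚ x := by
    intro x hx
    have hint' : IsIntegral ℤ x := by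
      rcases hx with rfl | hx
      · refine IsIntegral.of_pow hp0 ?_
        rw [hζp]
        exact isIntegral_one
      · rw [Set.mem_singleton_iff] at hx
        subst hx
        refine IsIntegral.of_pow hp0 ?_
        rw [hγ]
        have h1 : ((G : ℤ) : ℂ) = algebraMap ℤ ℂ G := by simp
        rw [h1]
        exact isIntegral_algebraMap
    exact (hint'.tower_top (A := ℚ)).isAlgebraic
  have hmono : ∀ a b : ℕ, z ^ a * g ^ b ∈ Submodule.span ℚ (Set.range v) := by
    intro a b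
    have h1 : z ^ a = z ^ (a % p) := by
      conv_lhs => rw [← Nat.div_add_mod a p]
      rw [pow_add, pow_mul, hzp, one_pow, one_mul]
    have h2 : g ^ b = (G : F) ^ (b / p) * (((h (b % p) : ℕ) : F) * th (b % p)) := by
      conv_lhs => rw [← Nat.div_add_mod b p]
      rw [pow_add, pow_mul, hgp, hth]
      simp only
      rw [mul_comm (((h (b % p) : ℕ) : F)), mul_assoc (g ^ (b % p)), inv_mul_cancel₀ (hhF _),
        mul_one]
    have h3 : z ^ a * g ^ b = (((G : ℚ)) ^ (b / p) * ((h (b % p) : ℕ) : ℚ)) •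
        v (⟨a % p, Nat.mod_lt _ hp0⟩, ⟨b % p, Nat.mod_lt _ hp0⟩) := by
      rw [h1, h2, hv, Algebra.smul_def]
      simp only [map_mul, map_pow, map_intCast, map_natCast]
      ring
    rw [h3]
    exact Submodule.smul_mem _ _ (Submodule.subset_span ⟨_, rfl⟩)
  have hspan : Submodule.span ℚ (Set.range v) = ⊤ := by
    rw [eq_top_iff]
    rintro x -
    have h1 : (x : ℂ) ∈ Subalgebra.toSubmodule (Algebra.adjoin ℚ ({ζ, γ} : Set ℂ)) := by
      rw [Subalgebra.mem_toSubmodule, ← IntermediateField.adjoin_toSubalgebra_of_isAlgebraic halg]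
      exact x.2
    rw [Algebra.adjoin_eq_span] at h1
    have key : ∀ y ∈ Submodule.span ℚ ((Submonoid.closure ({ζ, γ} : Set ℂ)) : Set ℂ),
        ∃ x' : F, x' ∈ Submodule.span ℚ (Set.range v) ∧ (x' : ℂ) = y := by
      intro y hy
      induction hy using Submodule.span_induction with
      | mem y hy =>
        rw [SetLike.mem_coe, Submonoid.mem_closure_pair] at hy
        obtain ⟨a, b, rfl⟩ := hy
        exact ⟨z ^ a * g ^ b, hmono a b, by simp [hz, hg]⟩
      | zero => exact ⟨0, Submodule.zero_mem _, by simp⟩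
      | add y y' _ _ ih ih' =>
        obtain ⟨x1, h1, rfl⟩ := ih
        obtain ⟨x2, h2, rfl⟩ := ih'
        exact ⟨x1 + x2, Submodule.add_mem _ h1 h2, by simp⟩
      | smul c y _ ih =>
        obtain ⟨x1, h1, rfl⟩ := ih
        refine ⟨c • x1, Submodule.smul_mem _ c h1, ?_⟩
        rfl
    obtain ⟨x', hx', hxx⟩ := key _ h1
    have : x' = x := Subtype.ext hxx
    rw [← this]
    exact hx'
  have hfd : FiniteDimensional ℚ F :=
    Module.finite_def.mpr ((Submodule.fg_def).mpr ⟨Set.range v, Set.finite_range v, hspan⟩)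
  have hNF : NumberField F := { to_charZero := inferInstance, to_finiteDimensional := hfd }
  have hcard : Module.finrank ℚ F ≤ p ^ 2 := by
    refine (finrank_le_of_span_eq_top hspan).trans (le_of_eq ?_)
    rw [Fintype.card_prod, Fintype.card_fin, sq]
  refine ⟨hNF, hcard, ?_⟩
  obtain ⟨κ, a, hainj, haspan, hali⟩ := exists_linearIndependent' ℚ v
  rw [hspan] at haspan
  have hfin : Finite κ := Finite.of_injective a hainj
  have : Fintype κ := Fintype.ofFinite κ
  have hbasis := Module.Basis.mk hali (by rw [haspan])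
  have hκ : Fintype.card κ = Module.finrank ℚ F := (Module.finrank_eq_card_basis hbasis).symm
  have eqv : Fin (Module.finrank ℚ F) ≃ κ := Fintype.equivOfCardEq (by
    rw [Fintype.card_fin, hκ])
  refine ⟨fun i => ⟨v (a (eqv i)), hint _⟩, ?_, ?_⟩
  · have h1 := hali.comp eqv eqv.injective
    exact h1
  · intro i σ
    exact hsmall (a (eqv i)) σ

end Pool.Agent.W108.FC.BAS
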