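import Pool.Agent.W232.FC.Stm

set_option autoImplicit false

/-!
Multiplicities of prime ideals.
-/

namespace Pool.Agent.W108.FC

open NumberField UniqueFactorizationMonoid Pool.Agent.W232.FC

variable {K : Type} [Field K] [NumberField K]

lemma span_ne {x : 𝓞 K} (hx : x ≠ 0) : Ideal.span {x} ≠ (⊥ : Ideal (𝓞 K)) := by
  rwa [Ne, Ideal.span_singleton_eq_bot]

lemma cnt_mul (P : Ideal (𝓞 K)) {x y : 𝓞 K} (hx : x ≠ 0) (hy : y ≠ 0) :
    (normalizedFactors (Ideal.span {x * y})).count P =
      (normalizedFactors (Ideal.span {x})).count P +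
        (normalizedFactors (Ideal.span {y})).count P := by
  rw [← Ideal.span_singleton_mul_span_singleton, normalizedFactors_mul (span_ne hx) (span_ne hy),
    Multiset.count_add]

lemma cnt_pow (P : Ideal (𝓞 K)) (x : 𝓞 K) (n : ℕ) :
    (normalizedFactors (Ideal.span {x ^ n})).count P =
      n * (normalizedFactors (Ideal.span {x})).count P := by
  rw [← Ideal.span_singleton_pow, normalizedFactors_pow, Multiset.count_nsmul]

lemma cnt_zero (P : Ideal (𝓞 K)) {x : 𝓞 K} (hx : x ∉ P) :
    (normalizedFactors (Ideal.span {x})).count P = 0 := by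
  rw [Multiset.count_eq_zero]
  intro h
  exact hx (Ideal.dvd_span_singleton.mp (dvd_of_mem_normalizedFactors h))

lemma cnt_prod_zero (P : Ideal (𝓞 K)) [hP : P.IsPrime] {ι : Type*} (s : Finset ι) (f : ι → 𝓞 K)
    (h : ∀ i ∈ s, f i ∉ P) : (normalizedFactors (Ideal.span {∏ i ∈ s, f i})).count P = 0 := by
  refine cnt_zero P ?_
  intro h1
  rw [hP.prod_mem_iff] at h1
  obtain ⟨i, hi, h2⟩ := h1
  exact h i hi h2

/-- a natural number in a prime ideal has a prime factor in it -/
lemma exists_prime_mem (P : Ideal (𝓞 K)) [hP : P.IsPrime] (n : ℕ) (hn : n ≠ 0)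
    (h : (n : 𝓞 K) ∈ P) : ∃ l : ℕ, l.Prime ∧ l ∣ n ∧ (l : 𝓞 K) ∈ P := by
  induction n using Nat.strong_induction_on with
  | _ n ih =>
    by_cases h1 : n = 1
    · rw [h1, Nat.cast_one] at h
      exact absurd ((Ideal.eq_top_iff_one P).mpr h) hP.ne_top
    · have hm := Nat.minFac_prime h1
      obtain ⟨m, hm'⟩ := Nat.minFac_dvd n
      have h2 : ((n.minFac : 𝓞 K)) * (m : 𝓞 K) ∈ P := by
        rw [← Nat.cast_mul, ← hm']
        exact h
      rcases hP.mem_or_mem h2 with h3 | h3
      · exact ⟨n.minFac, hm, Nat.minFac_dvd n, h3⟩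
      · have hm0 : m ≠ 0 := by
          rintro rfl
          rw [mul_zero] at hm'
          exact hn hm'
        have hlt : m < n := by
          rw [hm']
          have := hm.two_le
          nlinarith [Nat.pos_of_ne_zero hm0]
        obtain ⟨l, hl, hlm, hlP⟩ := ih m hlt hm0 h3
        exact ⟨l, hl, hlm.trans (hm'.symm ▸ Dvd.intro_left _ rfl), hlP⟩

end Pool.Agent.W108.FC
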