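import Pool.Agent.W108.FC.Cnt

set_option autoImplicit false

/-!
Decomposition of ideals and the number of small parts (`S_DEC`, `S_NUMD`).
-/

namespace Pool.Agent.W108.FC.DEC

open NumberField UniqueFactorizationMonoid Pool.Agent.W232.FC Pool.Agent.W108.FC

section MS

variable {α : Type*} [DecidableEq α]

/-- the multiset with multiplicities `f (count)` -/
noncomputable def mp (f : ℕ → ℕ) (m : Multiset α) : Multiset α :=
  ∑ a ∈ m.toFinset, f (m.count a) • ({a} : Multiset α)

lemma count_mp (f : ℕ → ℕ) (hf : f 0 = 0) (m : Multiset α) (a : α) :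
    (mp f m).count a = f (m.count a) := by
  unfold mp
  rw [Multiset.count_sum']
  by_cases ha : a ∈ m.toFinset
  · rw [Finset.sum_eq_single_of_mem a ha]
    · rw [Multiset.count_nsmul, Multiset.count_singleton_self, mul_one]
    · intro b _ hba
      rw [Multiset.count_nsmul, Multiset.count_singleton, if_neg hba.symm, mul_zero]
  · rw [Finset.sum_eq_zero]
    · rw [Multiset.mem_toFinset] at ha
      rw [Multiset.count_eq_zero_of_notMem ha, hf]
    · intro b hb
      rw [Multiset.count_nsmul, Multiset.count_singleton, if_neg, mul_zero]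
      rintro rfl
      exact ha hb

lemma mem_of_mem_mp (f : ℕ → ℕ) (hf : f 0 = 0) (m : Multiset α) {a : α} (h : a ∈ mp f m) :
    a ∈ m := by
  rw [← Multiset.count_pos, count_mp f hf] at h
  by_contra hcon
  rw [Multiset.count_eq_zero_of_notMem hcon, hf] at h
  exact lt_irrefl _ h

end MS

variable {K : Type} [Field K] [NumberField K]

lemma prime_of_isPrime {P : Ideal (𝓞 K)} (hP : P.IsPrime) (h0 : P ≠ ⊥) : Prime P :=
  Ideal.prime_of_isPrime h0 hP

theorem dec : Pool.Agent.W232.FC.S_DEC := by
  classical
  intro K _ _ q ρ x hq hx hval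
  have hI : Ideal.span {x} ≠ (⊥ : Ideal (𝓞 K)) := span_ne hx
  set m := normalizedFactors (Ideal.span {x}) with hm
  set m1 := mp (fun n => n % q) m with hm1
  set m2 := mp (fun n => n / q) m with hm2
  have hprime : ∀ P ∈ m, Prime P := fun P hP => prime_of_normalized_factor P hP
  have hp1 : ∀ P ∈ m1, Prime P := fun P hP => hprime P (mem_of_mem_mp _ (Nat.zero_mod q) m hP)
  have hp2 : ∀ P ∈ m2, Prime P := fun P hP => hprime P (mem_of_mem_mp _ (Nat.zero_div q) m hP)
  have hsum : m = m1 + q • m2 := by
    ext P
    rw [Multiset.count_add, Multiset.count_nsmul, hm1, hm2, count_mp _ (Nat.zero_mod q),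
      count_mp _ (Nat.zero_div q)]
    exact (Nat.mod_add_div _ _).symm
  have hne : ∀ n : Multiset (Ideal (𝓞 K)), (∀ P ∈ n, Prime P) → n.prod ≠ ⊥ := by
    intro n hn h
    have h1 : (0 : Ideal (𝓞 K)) ∈ n := by
      rw [← Multiset.prod_eq_zero_iff]
      exact h
    exact (hn 0 h1).ne_zero rfl
  have hnf1 : normalizedFactors m1.prod = m1 := normalizedFactors_prod_of_prime hp1
  refine ⟨m1.prod, m2.prod, ?_, hne m2 hp2, hne m1 hp1, ?_⟩
  · have h1 : m.prod = Ideal.span {x} := by
      exact Ideal.prod_normalizedFactors_eq_self hI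
    rw [← h1, hsum, Multiset.prod_add, Multiset.prod_nsmul]
  · intro P hP hPd
    have hP0 : P ≠ ⊥ := by
      rintro rfl
      exact hne m1 hp1 (eq_zero_of_zero_dvd hPd)
    have hPp := prime_of_isPrime hP hP0
    have hmem : P ∈ m1 := by
      rw [← hnf1]
      exact (mem_normalizedFactors_iff (hne m1 hp1)).mpr ⟨hPp, hPd⟩
    have hcount : m1.count P = m.count P % q := by
      rw [hm1, count_mp _ (Nat.zero_mod q)]
    have hcpos : 0 < m1.count P := Multiset.count_pos.mpr hmem
    constructor
    · by_contra hρ
      have h1 := hval P hP hP0 hρ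
      rw [hcount] at hcpos
      rw [← hm] at h1
      omega
    · intro hdvd
      rw [dvd_iff_normalizedFactors_le_normalizedFactors (pow_ne_zero _ hPp.ne_zero)
        (hne m1 hp1), hnf1, normalizedFactors_pow, normalizedFactors_irreducible hPp.irreducible,
        normalize_eq] at hdvd
      have h1 := Multiset.count_le_of_le P hdvd
      rw [Multiset.count_nsmul, Multiset.count_singleton_self, mul_one, hcount] at h1
      have h2 := Nat.mod_lt (m.count P) (by omega : 0 < q)
      omega

theorem numd : Pool.Agent.W232.FC.S_NUMD := by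
  classical
  intro K _ _ q ρ k hq hk t ht
  set Q : Finset (Ideal (𝓞 K)) := t.biUnion (fun d => (normalizedFactors d).toFinset) with hQ
  have hQk : Q.card ≤ k := by
    refine hk Q ?_
    intro P hP
    rw [hQ, Finset.mem_biUnion] at hP
    obtain ⟨d, hd, hPd⟩ := hP
    rw [Multiset.mem_toFinset] at hPd
    have hPp := prime_of_normalized_factor P hPd
    have hPi : P.IsPrime := Ideal.isPrime_of_prime hPp
    exact ⟨hPi, hPp.ne_zero, ((ht d hd).2 P hPi (dvd_of_mem_normalizedFactors hPd)).1⟩
  have hlt : ∀ d ∈ t, ∀ P : Ideal (𝓞 K), (normalizedFactors d).count P < q := by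
    intro d hd P
    obtain ⟨hd0, hsm⟩ := ht d hd
    by_cases hPd : P ∈ normalizedFactors d
    · have hPp := prime_of_normalized_factor P hPd
      have hPi : P.IsPrime := Ideal.isPrime_of_prime hPp
      have h1 := (hsm P hPi (dvd_of_mem_normalizedFactors hPd)).2
      by_contra hcon
      rw [not_lt] at hcon
      apply h1
      rw [dvd_iff_normalizedFactors_le_normalizedFactors (pow_ne_zero _ hPp.ne_zero) hd0,
        normalizedFactors_pow, normalizedFactors_irreducible hPp.irreducible, normalize_eq,
        Multiset.le_iff_count]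
      intro P'
      rw [Multiset.count_nsmul, Multiset.count_singleton]
      split_ifs with h
      · rw [h, mul_one]; exact hcon
      · rw [mul_zero]; exact Nat.zero_le _
    · rw [Multiset.count_eq_zero_of_notMem hPd]
      omega
  have hq0 : 0 < q := by omega
  set g : Ideal (𝓞 K) → (Q → Fin q) := fun d P =>
    ⟨(normalizedFactors d).count P.1 % q, Nat.mod_lt _ hq0⟩ with hg
  have hinj : Set.InjOn g t := by
    intro d hd d' hd' hdd
    have hd0 := (ht d hd).1
    have hd0' := (ht d' hd').1
    have h1 : normalizedFactors d = normalizedFactors d' := by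
      ext P
      by_cases hP : P ∈ Q
      · have h2 := congrFun hdd ⟨P, hP⟩
        rw [hg] at h2
        simp only [Fin.mk.injEq] at h2
        rwa [Nat.mod_eq_of_lt (hlt d hd P), Nat.mod_eq_of_lt (hlt d' hd' P)] at h2
      · rw [Multiset.count_eq_zero_of_notMem, Multiset.count_eq_zero_of_notMem]
        · intro h
          exact hP (Finset.mem_biUnion.mpr ⟨d', hd', Multiset.mem_toFinset.mpr h⟩)
        · intro h
          exact hP (Finset.mem_biUnion.mpr ⟨d, hd, Multiset.mem_toFinset.mpr h⟩)
    rw [← Ideal.prod_normalizedFactors_eq_self hd0, h1, Ideal.prod_normalizedFactors_eq_self hd0']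
  calc t.card = (t.image g).card := (Finset.card_image_of_injOn hinj).symm
    _ ≤ Fintype.card (Q → Fin q) := Finset.card_le_univ _
    _ = q ^ Q.card := by simp
    _ ≤ q ^ k := Nat.pow_le_pow_right hq0 hQk

end Pool.Agent.W108.FC.DEC
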