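import Pool.Agent.W108.FC.Cnt

set_option autoImplicit false

/-!
Multiplicities of the factors `u - ζ^j γ` (`S_VAL`).
-/

namespace Pool.Agent.W108.FC.VAL

open NumberField UniqueFactorizationMonoid Pool.Agent.W232.FC Pool.Agent.W108.FC

/-- differences of roots of unity divide the order -/
lemma sub_dvd {R : Type*} [CommRing R] [IsDomain R] {p : ℕ} (hp : 2 ≤ p) {ζ : R}
    (hζ : IsPrimitiveRoot ζ p) {a b : R} (ha : a ^ p = 1) (hb : b ^ p = 1) (hab : a ≠ b) :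
    a - b ∣ (p : R) := by
  have hp0 : 0 < p := by omega
  -- `b = a ν`
  set ν : R := b * a ^ (p - 1) with hν
  have haa : a * a ^ (p - 1) = 1 := by
    rw [← pow_succ', Nat.sub_add_cancel (by omega), ha]
  have hbν : a * ν = b := by
    rw [hν]
    calc a * (b * a ^ (p - 1)) = b * (a * a ^ (p - 1)) := by ring
      _ = b := by rw [haa, mul_one]
  have hν1 : ν ^ p = 1 := by
    rw [hν, mul_pow, hb, ← pow_mul, mul_comm (p - 1) p, pow_mul, ha, one_pow, mul_one]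
  have : NeZero p := ⟨by omega⟩
  obtain ⟨m, hm, hmν⟩ := hζ.eq_pow_of_pow_eq_one hν1
  have hm0 : m ≠ 0 := by
    rintro rfl
    apply hab
    rw [← hbν, ← hmν, pow_zero, mul_one]
  have hdvd : (1 - ζ ^ m) ∣ (p : R) := by
    obtain ⟨n, rfl⟩ : ∃ n, p = n + 1 := ⟨p - 1, by omega⟩
    have h1 := hζ.prod_one_sub_pow_eq_order
    rw [← Nat.cast_succ] at h1
    rw [← h1]
    have h2 : m = (m - 1) + 1 := by omega
    rw [h2]
    exact Finset.dvd_prod_of_mem (fun k => 1 - ζ ^ (k + 1)) (Finset.mem_range.mpr (by omega))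
  have h3 : a - b = a * (1 - ζ ^ m) := by
    rw [hmν, mul_sub, mul_one, hbν]
  have h4 : IsUnit a := IsUnit.of_mul_eq_one _ haa
  rw [h3]
  exact (IsUnit.mul_left_dvd h4).mpr hdvd

theorem main : Pool.Agent.W232.FC.S_VAL := by
  classical
  intro K _ _ p q ρ ζ γ u M b hp hq hζ hM hb hpρ hMρ hγ heq j 𝔓 hprime hbot hρ
  have := hprime
  have hp0 : 0 < p := by omega
  have hfac := hζ.pow_sub_pow_eq_prod_sub_mul (u : 𝓞 K) γ hp0
  have hMK : (M : 𝓞 K) ≠ 0 := by exact_mod_cast hM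
  have hbK : (b : 𝓞 K) ≠ 0 := by exact_mod_cast hb
  have hMb : (M : 𝓞 K) * (b : 𝓞 K) ^ q ≠ 0 := mul_ne_zero hMK (pow_ne_zero _ hbK)
  have hζj : ζ ^ j ∈ Polynomial.nthRootsFinset p (1 : 𝓞 K) := by
    rw [Polynomial.mem_nthRootsFinset hp0, ← pow_mul, mul_comm, pow_mul, hζ.pow_eq_one, one_pow]
  rw [← Finset.mul_prod_erase _ _ hζj] at hfac
  set x : 𝓞 K := (u : 𝓞 K) - ζ ^ j * γ with hx
  set R : 𝓞 K := ∏ μ ∈ (Polynomial.nthRootsFinset p (1 : 𝓞 K)).erase (ζ ^ j),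
    ((u : 𝓞 K) - μ * γ) with hR
  have hxR : x * R = -((M : 𝓞 K) * (b : 𝓞 K) ^ q) := by
    rw [← hfac, ← heq]
    ring
  have hxR0 : x * R ≠ 0 := by rw [hxR]; exact neg_ne_zero.mpr hMb
  have hx0 : x ≠ 0 := left_ne_zero_of_mul hxR0
  have hR0 : R ≠ 0 := right_ne_zero_of_mul hxR0
  by_cases hxP : x ∈ 𝔓
  · have hR1 : (normalizedFactors (Ideal.span {R})).count 𝔓 = 0 := by
      rw [hR]
      refine cnt_prod_zero 𝔓 _ _ ?_
      intro μ hμ hμP
      rw [Finset.mem_erase, Polynomial.mem_nthRootsFinset hp0] at hμ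
      have h1 : (ζ ^ j - μ) * γ ∈ 𝔓 := by
        have h2 : (ζ ^ j - μ) * γ = ((u : 𝓞 K) - μ * γ) - x := by rw [hx]; ring
        rw [h2]
        exact sub_mem hμP hxP
      rcases hprime.mem_or_mem h1 with h2 | h2
      · have h3 := sub_dvd hp hζ ((Polynomial.mem_nthRootsFinset hp0 _).mp hζj) hμ.2 hμ.1.symm
        have h4 : (p : 𝓞 K) ∈ 𝔓 := Ideal.mem_of_dvd _ h3 h2
        apply hρ
        obtain ⟨r, rfl⟩ := hpρ
        rw [Nat.cast_mul]
        exact Ideal.mul_mem_right _ _ h4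
      · exact hρ (hγ 𝔓 hprime hbot h2)
    have hMP : (M : 𝓞 K) ∉ 𝔓 := by
      intro h
      have h1 : ((M.natAbs : ℕ) : 𝓞 K) ∈ 𝔓 := by
        rcases Int.natAbs_eq M with h2 | h2
        · rw [h2, Int.cast_natCast] at h
          exact h
        · rw [h2, Int.cast_neg, Int.cast_natCast] at h
          exact (neg_mem_iff).mp h
      obtain ⟨l, hl, hlM, hlP⟩ := exists_prime_mem 𝔓 M.natAbs (Int.natAbs_ne_zero.mpr hM) h1
      have h2 := hMρ l hl (Int.natCast_dvd.mpr hlM)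
      apply hρ
      obtain ⟨r, rfl⟩ := h2
      rw [Nat.cast_mul]
      exact Ideal.mul_mem_right _ _ hlP
    have h1 := cnt_mul 𝔓 hx0 hR0
    rw [hR1, add_zero] at h1
    have h2 : Ideal.span {x * R} = Ideal.span {(M : 𝓞 K) * (b : 𝓞 K) ^ q} := by
      rw [hxR, Ideal.span_singleton_neg]
    rw [h2, cnt_mul 𝔓 hMK (pow_ne_zero _ hbK), cnt_zero 𝔓 hMP, zero_add, cnt_pow] at h1
    rw [← h1]
    exact Dvd.intro _ rfl
  · rw [cnt_zero 𝔓 hxP]
    exact dvd_zero q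

end Pool.Agent.W108.FC.VAL
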